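import Mathlib
import Pool.Agent.Work.MP_77d073_nt.PairResult
import Pool.Agent.Work.MP_77d073_nt.Wall.Min
import Pool.Agent.Work.MP_77d073_nt.Wall.Nrm
import Pool.Agent.Work.MP_77d073_nt.Wall.Cop
import Pool.Agent.Work.MP_77d073_nt.Blk.Main

set_option autoImplicit false

namespace Pool.Agent.Results.MP_77d073_nt.BlockStructure

open Filter Topology Polynomial Pool.Agent.Work.MP_77d073_nt

/-- The product of the forms is bounded away from zero on nonzero integer points. -/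
def Bounded {n : ℕ} (L : Fin n → Fin n → ℝ) : Prop :=
  ∃ c : ℝ, 0 < c ∧ ∀ p : Fin n → ℤ, p ≠ 0 → c ≤ |∏ i, ∑ j, L i j * (p j : ℝ)|

/-- The conclusion of Oppenheim's conjecture for the system `L`. -/
def Conclusion {n : ℕ} (L : Fin n → Fin n → ℝ) : Prop :=
  ∃ A : Matrix (Fin n) (Fin n) ℤ,
    A.det = 1 ∧
    Irreducible (A.charpoly.map (Int.castRingHom ℚ)) ∧
    (∀ z : ℂ, Polynomial.aeval z A.charpoly = 0 → z.im = 0) ∧
    ∀ i : Fin n, ∀ x : Fin n → ℝ, ∑ j, L i j * x j = 0 →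
      ∑ j, L i j * ((A.map (Int.cast : ℤ → ℝ)).mulVec x) j = 0

/-- `L'` is a limit of systems `t_i L_i ∘ M` with `M` unimodular and `∏ t_i = 1`. -/
def IsLimit {n : ℕ} (L L' : Fin n → Fin n → ℝ) : Prop :=
  ∃ (M : ℕ → Matrix (Fin n) (Fin n) ℤ) (t : ℕ → Fin n → ℝ),
    (∀ k, (M k).det = 1 ∨ (M k).det = -1) ∧ (∀ k, ∏ i, t k i = 1) ∧
    ∀ i j, Tendsto (fun k => t k i * ∑ l, L i l * (M k l j : ℝ)) atTop (𝓝 (L' i j))

/-- The same with scalings that satisfy `t_a = t_b`. -/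
def WallLimit {n : ℕ} (a b : Fin n) (L L' : Fin n → Fin n → ℝ) : Prop :=
  ∃ (M : ℕ → Matrix (Fin n) (Fin n) ℤ) (t : ℕ → Fin n → ℝ),
    (∀ k, (M k).det = 1 ∨ (M k).det = -1) ∧ (∀ k, ∏ i, t k i = 1) ∧ (∀ k, t k a = t k b) ∧
    ∀ i j, Tendsto (fun k => t k i * ∑ l, L i l * (M k l j : ℝ)) atTop (𝓝 (L' i j))

/-- The arrow from `i` to `k`: two limits `L'`, `L''` of `L` differ only in their `i`-th forms,
and `L''_i = L'_i + L'_k`. -/
def Arrow {n : ℕ} (L : Fin n → Fin n → ℝ) (i k : Fin n) : Prop :=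
  i ≠ k ∧ ∃ L' L'' : Fin n → Fin n → ℝ, IsLimit L L' ∧ IsLimit L L'' ∧
    ∀ m, L'' m = if m = i then L' i + L' k else L' m

/-- `L` is a wall limit of each of its wall limits. -/
def Recurrent {n : ℕ} (a b : Fin n) (L : Fin n → Fin n → ℝ) : Prop :=
  ∀ L' : Fin n → Fin n → ℝ, WallLimit a b L L' → WallLimit a b L' L

theorem isLimit_iff {n : ℕ} {L L' : Fin n → Fin n → ℝ} : IsLimit L L' ↔ L' ∈ closure (orb L) :=
  ⟨fun h => PairResult.limit_orb h, fun h => mem_closure_orb h⟩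

theorem wallLimit_iff {n : ℕ} {a b : Fin n} {L L' : Fin n → Fin n → ℝ} :
    WallLimit a b L L' ↔ L' ∈ closure (Root.worb a b L) := by
  constructor
  · rintro ⟨M, t, hM, ht, hab, hlim⟩
    refine mem_closure_of_tendsto (f := fun k => tr L (M k) (t k)) (b := atTop)
      (tendsto_pi_nhds.mpr fun i => tendsto_pi_nhds.mpr fun j => hlim i j)
      (Eventually.of_forall fun k => ⟨M k, t k, hM k, ht k, hab k, rfl⟩)
  · intro h
    rw [mem_closure_iff_seq_limit] at h
    obtain ⟨x, hx, hlim⟩ := h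
    choose M t hM ht hab hxe using hx
    refine ⟨M, t, hM, ht, hab, fun i j => ?_⟩
    have h1 := (tendsto_pi_nhds.mp ((tendsto_pi_nhds.mp hlim) i)) j
    refine h1.congr fun k => ?_
    rw [hxe k]
    rfl

theorem scale_eq {n : ℕ} (L : Fin n → Fin n → ℝ) (t : Fin n → ℝ) :
    (fun a b => t a * L a b) = tr L 1 t := by
  funext a b
  unfold tr
  simp [Matrix.one_apply]

theorem arrow_of_pr {n : ℕ} {L : Fin n → Fin n → ℝ} {i k : Fin n} (hik : i ≠ k)
    (h : Root.Pr (closure (orb L)) i k) : Arrow L i k := by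
  obtain ⟨Z, hZ, Z', hZ', hrel⟩ := h
  refine ⟨hik, Z, Z', mem_closure_orb hZ, mem_closure_orb hZ', fun m => ?_⟩
  funext b
  rw [hrel m b]
  split_ifs with h
  · rw [h]; rfl
  · rw [add_zero]

theorem forward {n : ℕ} (hn : 3 ≤ n) {L : Fin n → Fin n → ℝ} (hL : LinearIndependent ℝ L)
    (hb : Bounded L) (hconc : Conclusion L) :
    (∀ i k : Fin n, ¬ Arrow L i k) ∧
      ∀ i k : Fin n, i ≠ k → ∀ L', IsLimit L L' →
        Recurrent i k L' ∧
        ∀ t : Fin n → ℝ, ∏ a, t a = 1 → 0 < t i * t k →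
          WallLimit i k L' (fun a b => t a * L' a b) := by
  obtain ⟨c, hc, hlow⟩ := hb
  have hLdet := (li_iff_det L).mp hL
  refine ⟨fun i k => ?_, fun i k hik L' hL' => ?_⟩
  · rintro ⟨hik, L', L'', h1, h2, h3⟩
    exact (PairResult.result.1 n hn L hL ⟨c, hc, hlow⟩).mpr ⟨L', L'', h1, h2, i, k, hik, h3⟩ hconc
  · obtain ⟨A, μ, hμ, hA⟩ := PairResult.eigen_of_conclusion hL hconc
    obtain ⟨C, hC⟩ := values_of_matrix hμ hA
    have hL'c := isLimit_iff.mp hL'
    have hL'o : L' ∈ orb L := closed_orbit hLdet hC hL'c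
    obtain ⟨A', hA'⟩ := PairResult.eigen_orb hL'o hA
    have hdet' : (Matrix.of L').det ≠ 0 := by
      rw [← abs_pos, orb_det hL'c]; exact abs_pos.mpr hLdet
    have hne' : ∀ p : Fin n → ℤ, p ≠ 0 → ∀ i, ∑ j, L' i j * (p j : ℝ) ≠ 0 := by
      intro p hp i h0
      have h3 := orb_lower hL'c hlow p hp
      rw [Finset.prod_eq_zero (Finset.mem_univ i) h0, abs_zero] at h3
      linarith
    obtain ⟨C', hC'⟩ := values_of_matrix hμ hA'
    refine ⟨fun L'' hL'' => ?_, fun t ht htik => ?_⟩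
    · rw [wallLimit_iff] at hL'' ⊢
      exact Root.recurrent hn hdet' hne' hμ hA' hik
        (fun X hX => closed_orbit hdet' hC' hX) hL''
    · rw [wallLimit_iff, scale_eq]
      exact Root.scaled_mem hn hdet' hne' hμ hA' hik ht htik

theorem exists_scaling {n : ℕ} (hn : 3 ≤ n) {i k : Fin n} (hik : i ≠ k) :
    ∃ t : Fin n → ℝ, ∏ a, t a = 1 ∧ 0 < t i * t k ∧ |t i| ≠ |t k| := by
  classical
  obtain ⟨m, hm⟩ : ∃ m : Fin n, m ∉ ({i, k} : Finset (Fin n)) := by
    by_contra hcon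
    push Not at hcon
    have h1 : (Finset.univ : Finset (Fin n)) ⊆ {i, k} := fun m _ => hcon m
    have h2 := (Finset.card_le_card h1).trans Finset.card_le_two
    rw [Finset.card_univ, Fintype.card_fin] at h2
    omega
  rw [Finset.mem_insert, Finset.mem_singleton, not_or] at hm
  refine ⟨fun a => if a = i then 2 else if a = m then 1 / 2 else 1, ?_, ?_, ?_⟩
  · have h1 : ∀ a : Fin n, (if a = i then (2 : ℝ) else if a = m then 1 / 2 else 1) =
        (if a = i then 2 else 1) * (if a = m then 1 / 2 else 1) := by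
      intro a
      by_cases h : a = i
      · rw [if_pos h, if_pos h, if_neg (fun h' => hm.1 (h'.symm.trans h)), mul_one]
      · rw [if_neg h, if_neg h, one_mul]
    simp only [h1]
    rw [Finset.prod_mul_distrib, Finset.prod_ite_eq' Finset.univ i, Finset.prod_ite_eq' Finset.univ m]
    simp
  · simp [hik.symm, Ne.symm hm.2]
  · simp [hik.symm, Ne.symm hm.2]

theorem self_limit {n : ℕ} (L : Fin n → Fin n → ℝ) : IsLimit L L := by
  refine ⟨fun _ => 1, fun _ _ => 1, fun _ => Or.inl Matrix.det_one, fun _ => by simp, ?_⟩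
  intro i j
  refine (tendsto_const_nhds (x := L i j)).congr fun k => ?_
  simp [Matrix.one_apply]

/-- All forms of `y` are eigenforms of one integer matrix, with the eigenvalues `β a`. -/
def Eigen {n : ℕ} (y : Fin n → Fin n → ℝ) (β : Fin n → ℝ) : Prop :=
  ∃ B : Matrix (Fin n) (Fin n) ℤ, ∀ a b, ∑ l, y a l * (B l b : ℝ) = β a * y a b

/-- `L'` is a limit of systems `t_i L_i ∘ M` with integer matrices `M` of nonzero determinant. -/
def IsWideLimit {n : ℕ} (L L' : Fin n → Fin n → ℝ) : Prop :=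
  ∃ (M : ℕ → Matrix (Fin n) (Fin n) ℤ) (t : ℕ → Fin n → ℝ),
    (∀ k, (M k).det ≠ 0) ∧ (∀ k, ∏ i, t k i = 1) ∧
    ∀ i j, Tendsto (fun k => t k i * ∑ l, L i l * (M k l j : ℝ)) atTop (𝓝 (L' i j))

theorem not_cn_limit {n : ℕ} (hn : 3 ≤ n) {L : Fin n → Fin n → ℝ} (hL : LinearIndependent ℝ L)
    (hb : Bounded L) (hnot : ¬ Conclusion L) {L' : Fin n → Fin n → ℝ}
    (hL'c : L' ∈ closure (orb L)) : ¬ Root.Cn L' := by
  obtain ⟨c, hc, hlow⟩ := hb
  rintro ⟨A, hdetA, hirr, hreal, hinv⟩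
  apply hnot
  obtain ⟨M, t, hM, ht, hlim⟩ := mem_closure_orb hL'c
  have i0 : Fin n := ⟨0, by omega⟩
  refine Pool.Agent.Work.MP_77d073_nt.HypResult.result n hn L hL ⟨c, hc, hlow⟩
    M t L' (fun k => (hM k).ne_zero) ht hlim i0 (A.map (Int.castRingHom ℚ)) ?_ ?_
  · rw [Matrix.charpoly_map]; exact hirr
  · intro x hx
    have h1 := hinv i0 x hx
    simpa [Matrix.map_map, Function.comp_def] using h1

/-- The structure theorem with the definitions of this file. -/
theorem blocks {n : ℕ} (hn : 3 ≤ n) {L : Fin n → Fin n → ℝ} (hL : LinearIndependent ℝ L)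
    (hb : Bounded L) (hnot : ¬ Conclusion L) :
    ∃ (y : Fin n → Fin n → ℝ) (B : Matrix (Fin n) (Fin n) ℤ) (β : Fin n → ℝ) (q : ℚ[X]) (d : ℕ),
      IsLimit L y ∧ (∀ a b, ∑ l, y a l * (B l b : ℝ) = β a * y a b) ∧ Irreducible q ∧
      B.charpoly.map (Int.castRingHom ℚ) = q ^ d ∧ 2 ≤ d ∧ d * q.natDegree = n ∧
      (∀ i, {k | β k = β i}.ncard = d) ∧
      (∀ y', IsLimit y y' → Eigen y' β ∧ ∀ β', Eigen y' β' → ∀ i k, β i = β k → β' i = β' k) ∧
      ∀ i k, i ≠ k → β i = β k → Arrow y i k := by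
  classical
  obtain ⟨c, hc, hlow⟩ := hb
  obtain ⟨y, hy, B, β, q, d, hB, hq, hqd, hd, hdn, hcard, hall, harr⟩ :=
    Blk.structure_thm hn hL hc hlow hnot
  refine ⟨y, B, β, q, d, isLimit_iff.mpr hy, hB, hq, ?_, hd, hdn, fun i => ?_,
    fun y' hy' => hall y' (isLimit_iff.mp hy'), fun i k hik h => arrow_of_pr hik (harr i k hik h)⟩
  · rw [← Matrix.charpoly_map]; exact hqd
  · rw [← hcard i, Set.ncard_eq_toFinset_card']
    congr 1
    ext k
    simp

theorem arrow_mono {n : ℕ} {L y : Fin n → Fin n → ℝ} (hy : y ∈ closure (orb L)) {i k : Fin n}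
    (h : Arrow y i k) : Arrow L i k := by
  obtain ⟨hik, L', L'', h1, h2, h3⟩ := h
  have hsub := (orb_CI L).orb_sub hy
  exact ⟨hik, L', L'', isLimit_iff.mpr (hsub (isLimit_iff.mp h1)),
    isLimit_iff.mpr (hsub (isLimit_iff.mp h2)), h3⟩

theorem exists_pair {n : ℕ} (i : Fin n) {d : ℕ} (hd : 2 ≤ d) {r : Setoid (Fin n)}
    (hr : {k | r i k}.ncard = d) : ∃ k, i ≠ k ∧ r i k := by
  by_contra hcon
  push Not at hcon
  have h1 : {k | r i k} ⊆ {i} := by
    intro k hk
    by_contra hne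
    exact hcon k (fun h => hne (by rw [h]; rfl)) hk
  have h2 := Set.ncard_le_ncard h1 (Set.finite_singleton i)
  rw [hr, Set.ncard_singleton] at h2
  omega

/-- Block structure of a counterexample to Oppenheim's conjecture, for all `n ≥ 3`. -/
theorem result (n : ℕ) (hn : 3 ≤ n) (L : Fin n → Fin n → ℝ) (hL : LinearIndependent ℝ L)
    (hb : Bounded L) :
    (Conclusion L ∨
      ∃ (y : Fin n → Fin n → ℝ) (B : Matrix (Fin n) (Fin n) ℤ) (β : Fin n → ℝ) (q : ℚ[X]) (d : ℕ),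
        IsLimit L y ∧ (∀ a b, ∑ l, y a l * (B l b : ℝ) = β a * y a b) ∧ Irreducible q ∧
        B.charpoly.map (Int.castRingHom ℚ) = q ^ d ∧ 2 ≤ d ∧ d * q.natDegree = n ∧
        (∀ i, {k | β k = β i}.ncard = d) ∧
        (∀ y', IsLimit y y' → Eigen y' β ∧ ∀ β', Eigen y' β' → ∀ i k, β i = β k → β' i = β' k) ∧
        ∀ i k, i ≠ k → β i = β k → Arrow y i k) ∧
    List.TFAE [
      Conclusion L,
      ∀ i k : Fin n, ¬ Arrow L i k,
      ∀ (d : ℕ) (r : Setoid (Fin n)), 2 ≤ d → (∀ i, {k | r i k}.ncard = d) →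
        ∃ i k, i ≠ k ∧ r i k ∧ ¬ Arrow L i k,
      ∀ L', IsLimit L L' → ∀ i k : Fin n, i ≠ k →
        Recurrent i k L' ∧
        ∀ t : Fin n → ℝ, ∏ a, t a = 1 → 0 < t i * t k →
          WallLimit i k L' (fun a b => t a * L' a b),
      ∃ L', IsLimit L L' ∧ ∀ (d : ℕ) (r : Setoid (Fin n)), 2 ≤ d → (∀ i, {k | r i k}.ncard = d) →
        ∃ i k, i ≠ k ∧ r i k ∧ Recurrent i k L' ∧
          ∃ t : Fin n → ℝ, ∏ a, t a = 1 ∧ |t i| ≠ |t k| ∧
            WallLimit i k L' (fun a b => t a * L' a b),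
      ∃ L', IsWideLimit L L' ∧ ∃ (I : Finset (Fin n)) (B : Matrix (Fin n) (Fin n) ℚ),
        Nat.Coprime I.card n ∧ Irreducible B.charpoly ∧
        ∀ x : Fin n → ℝ, (∀ i ∈ I, ∑ j, L' i j * x j = 0) →
          ∀ i ∈ I, ∑ j, L' i j * ((B.map (Rat.cast : ℚ → ℝ)).mulVec x) j = 0] := by
  classical
  have i0 : Fin n := ⟨0, by omega⟩
  refine ⟨?_, ?_⟩
  · by_cases h : Conclusion L
    · exact Or.inl h
    · exact Or.inr (blocks hn hL hb h)
  tfae_have 1 → 2 := fun h => (forward hn hL hb h).1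
  tfae_have 2 → 3 := by
    intro h d r hd hr
    obtain ⟨k, hik, hrk⟩ := exists_pair i0 hd (hr i0)
    exact ⟨i0, k, hik, hrk, h i0 k⟩
  tfae_have 3 → 1 := by
    intro h
    by_contra hnot
    obtain ⟨y, B, β, q, d, hy, -, -, -, hd, -, hcard, -, harr⟩ := blocks hn hL hb hnot
    obtain ⟨i, k, hik, hr, hna⟩ := h d (Setoid.ker β) hd (fun i => by
      rw [← hcard i]
      congr 1
      ext k
      exact eq_comm)
    exact hna (arrow_mono (isLimit_iff.mp hy) (harr i k hik hr))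
  tfae_have 1 → 4 := fun h L' hL' i k hik => (forward hn hL hb h).2 i k hik L' hL'
  tfae_have 4 → 5 := by
    intro h
    refine ⟨L, self_limit L, fun d r hd hr => ?_⟩
    obtain ⟨k, hik, hrk⟩ := exists_pair i0 hd (hr i0)
    obtain ⟨h1, h2⟩ := h L (self_limit L) i0 k hik
    obtain ⟨t, ht1, ht2, ht3⟩ := exists_scaling hn hik
    exact ⟨i0, k, hik, hrk, h1, t, ht1, ht3, h2 t ht1 ht2⟩
  tfae_have 5 → 1 := by
    rintro ⟨L', hL', h⟩
    by_contra hnot
    have hL'c := isLimit_iff.mp hL'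
    have hnot' := not_cn_limit hn hL hb hnot hL'c
    obtain ⟨c, hc, hlow⟩ := hb
    have hLdet := (li_iff_det L).mp hL
    have hdet' : (Matrix.of L').det ≠ 0 := by
      rw [← abs_pos, orb_det hL'c]; exact abs_pos.mpr hLdet
    have hlow' := orb_lower hL'c hlow
    obtain ⟨y, hy, B, β, q, d, -, -, -, hd, -, hcard, -, harr⟩ :=
      Blk.structure_thm hn ((li_iff_det L').mpr hdet') hc hlow' hnot'
    obtain ⟨i, k, hik, hr, hrec, t, ht, hti, hW⟩ := h d (Setoid.ker β) hd (fun i => by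
      rw [← hcard i, Set.ncard_eq_toFinset_card']
      congr 1
      ext k
      simp only [Set.mem_toFinset, Set.mem_ofPred_eq, Finset.mem_filter, Finset.mem_univ, true_and]
      exact eq_comm)
    rw [wallLimit_iff, scale_eq] at hW
    obtain ⟨Z, hZ, Z', hZ', hrel⟩ := harr i k hik hr
    have hsub := (orb_CI L').orb_sub hy
    exact Root.wall_min hn hik hc hlow'
      (fun y' hy' => wallLimit_iff.mp (hrec y' (wallLimit_iff.mpr hy'))) ht hti hW
      ⟨Z, hsub hZ, Z', hsub hZ', hrel⟩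
  tfae_have 1 → 6 := by
    rintro ⟨A, hdetA, hirr, hreal, hinv⟩
    refine ⟨L, ?_, {i0}, A.map (Int.castRingHom ℚ), ?_, ?_, ?_⟩
    · obtain ⟨M, t, hM, ht, hlim⟩ := self_limit L
      refine ⟨M, t, fun k => ?_, ht, hlim⟩
      rcases hM k with h | h <;> rw [h] <;> norm_num
    · rw [Finset.card_singleton]; exact Nat.coprime_one_left n
    · rw [Matrix.charpoly_map]; exact hirr
    · intro x hx i hi
      rw [Finset.mem_singleton] at hi
      subst hi
      have h1 := hinv i x (hx i (Finset.mem_singleton_self i))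
      simpa [Matrix.map_map, Function.comp_def] using h1
  tfae_have 6 → 1 := by
    rintro ⟨L', ⟨M, t, hM, ht, hlim⟩, I, B, hco, hB, hinv⟩
    have hIne : I.Nonempty := by
      rw [← Finset.card_pos]
      rcases Nat.eq_zero_or_pos I.card with h0 | h0
      · rw [h0, Nat.coprime_zero_left] at hco
        omega
      · exact h0
    have hIuniv : I ≠ Finset.univ := by
      rintro rfl
      rw [Finset.card_univ, Fintype.card_fin, Nat.coprime_self] at hco
      omega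
    exact subspace_co hn hL hb hM ht hlim hIne hIuniv hco hB hinv
  tfae_finish

end Pool.Agent.Results.MP_77d073_nt.BlockStructure
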