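import Mathlib
import Pool.Agent.Work.MP_77d073_nt.Q4.Main

set_option autoImplicit false

namespace Pool.Agent.Results.MP_77d073_nt.SharpQuartic

open Pool.Agent.Work.MP_77d073_nt

/-- The sharp constant `1/√725` for the product of four real linear forms in four variables, and its
isolation: `L` is, up to scaling of the forms and a unimodular substitution, the norm form
`∏ (x₀ + x₁ θ + x₂ θ² + x₃ θ³)` over the four roots of `x^4 - x^3 - 3x^2 + x + 1` (and then the
hyperplanes `L_i = 0` are invariant under one irreducible matrix of `SL(4, ℤ)` with real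
eigenvalues, no nonzero integer point has a product smaller than `|det L| / √725`, and infinitely
many have exactly this product), or there are infinitely many nonzero integer points at which the
product is smaller than `(1/√725 - ε) |det L|`, for one constant `ε > 0`. -/
theorem result :
    (∃ ε : ℝ, 0 < ε ∧ ∀ L : Fin 4 → Fin 4 → ℝ, LinearIndependent ℝ L →
      ((∃ (θ : Fin 4 → ℝ) (U : Matrix (Fin 4) (Fin 4) ℤ) (a : Fin 4 → ℝ),
          (∀ i, θ i ^ 4 - θ i ^ 3 - 3 * θ i ^ 2 + θ i + 1 = 0) ∧ Function.Injective θ ∧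
          (U.det = 1 ∨ U.det = -1) ∧ (∀ i, a i ≠ 0) ∧
          ∀ i j, L i j = a i * ∑ k : Fin 4, θ i ^ (k : ℕ) * (U k j : ℝ)) ∧
        (∃ A : Matrix (Fin 4) (Fin 4) ℤ,
          A.det = 1 ∧
          Irreducible (A.charpoly.map (Int.castRingHom ℚ)) ∧
          (∀ z : ℂ, Polynomial.aeval z A.charpoly = 0 → z.im = 0) ∧
          ∀ i : Fin 4, ∀ x : Fin 4 → ℝ, ∑ j, L i j * x j = 0 →
            ∑ j, L i j * ((A.map (Int.cast : ℤ → ℝ)).mulVec x) j = 0) ∧
        (∀ p : Fin 4 → ℤ, p ≠ 0 →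
          |(Matrix.of L).det| / Real.sqrt 725 ≤ |∏ i, ∑ j, L i j * (p j : ℝ)|) ∧
        {p : Fin 4 → ℤ | |∏ i, ∑ j, L i j * (p j : ℝ)| =
          |(Matrix.of L).det| / Real.sqrt 725}.Infinite) ∨
      {p : Fin 4 → ℤ | p ≠ 0 ∧ |∏ i, ∑ j, L i j * (p j : ℝ)| <
        (1 / Real.sqrt 725 - ε) * |(Matrix.of L).det|}.Infinite) ∧
    (∃ L : Fin 4 → Fin 4 → ℝ, LinearIndependent ℝ L ∧
      ∀ p : Fin 4 → ℤ, p ≠ 0 →
        |(Matrix.of L).det| / Real.sqrt 725 ≤ |∏ i, ∑ j, L i j * (p j : ℝ)|) := by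
  obtain ⟨ε, hε, h⟩ := Q4.main
  refine ⟨⟨ε, hε, fun L hL => ?_⟩, ?_⟩
  · exact h L hL
  · obtain ⟨L, hL, hN⟩ := Q4.exists_normForm
    exact ⟨L, hL, fun p hp => Q4.low725 hN p hp⟩

end Pool.Agent.Results.MP_77d073_nt.SharpQuartic
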