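import Mathlib
import Pool.Agent.Work.MP_77d073_nt.ValMain

set_option autoImplicit false

namespace Pool.Agent.Results.MP_77d073_nt.ValueGap

open Filter Topology Pool.Agent.Work.MP_77d073_nt

/-- The value of the product of the forms `L_i` at the integer point `p`. -/
noncomputable def value {n : ℕ} (L : Fin n → Fin n → ℝ) (p : Fin n → ℤ) : ℝ :=
  ∏ i, ∑ j, L i j * (p j : ℝ)

/-- The conclusion of Oppenheim's conjecture for the system `L`. -/
def Conclusion {n : ℕ} (L : Fin n → Fin n → ℝ) : Prop :=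
  ∃ A : Matrix (Fin n) (Fin n) ℤ,
    A.det = 1 ∧
    Irreducible (A.charpoly.map (Int.castRingHom ℚ)) ∧
    (∀ z : ℂ, Polynomial.aeval z A.charpoly = 0 → z.im = 0) ∧
    ∀ i : Fin n, ∀ x : Fin n → ℝ, ∑ j, L i j * x j = 0 →
      ∑ j, L i j * ((A.map (Int.cast : ℤ → ℝ)).mulVec x) j = 0

/-- `L'` is a limit of systems `t_i L_i ∘ M` with `M` unimodular and `∏ t_i = 1`. -/
def IsLimit {n : ℕ} (L L' : Fin n → Fin n → ℝ) : Prop :=
  ∃ (M : ℕ → Matrix (Fin n) (Fin n) ℤ) (t : ℕ → Fin n → ℝ),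
    (∀ k, (M k).det = 1 ∨ (M k).det = -1) ∧ (∀ k, ∏ i, t k i = 1) ∧
    ∀ i j, Tendsto (fun k => t k i * ∑ l, L i l * (M k l j : ℝ)) atTop (𝓝 (L' i j))

theorem discrete_closed {C : ℝ} (hC : C ≠ 0) {V : Set ℝ} (hV : ∀ v ∈ V, ∃ z : ℤ, v = C * z) :
    IsClosed V := by
  have h1 : V = (Homeomorph.mulLeft₀ C hC) '' ((Int.cast : ℤ → ℝ) '' {z : ℤ | C * (z : ℝ) ∈ V}) := by
    ext v
    constructor
    · intro hv
      obtain ⟨z, hz⟩ := hV v hv
      exact ⟨(z : ℝ), ⟨z, by rw [Set.mem_ofPred_eq, ← hz]; exact hv, rfl⟩, hz.symm⟩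
    · rintro ⟨y, ⟨z, hz, rfl⟩, rfl⟩
      exact hz
  rw [h1]
  apply (Homeomorph.mulLeft₀ C hC).isClosedMap
  apply Int.isClosedEmbedding_coe_real.isClosedMap
  exact isClosed_discrete _

/-- A gap theorem for the value set of a product of linear forms. -/
theorem result (n : ℕ) (hn : 3 ≤ n) (L : Fin n → Fin n → ℝ) (hL : LinearIndependent ℝ L)
    (D : ℝ) (hD : D = |(Matrix.of L).det|) (c : ℝ) (hc : 0 < c)
    (hlow : ∀ p : Fin n → ℤ, p ≠ 0 → c ≤ |value L p|) :
    [Conclusion L,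
     IsClosed (Set.range (value L)),
     (closure (Set.range (value L)) ∩ Set.Icc (-(2 * D)) (2 * D)).Countable,
     ∃ ε : ℝ, 0 < ε ∧ ∀ S : Finset ℝ, (∀ x ∈ S, x ∈ Set.range (value L) ∧ |x| ≤ 2 * D) →
      (∀ x ∈ S, ∀ y ∈ S, x ≠ y → ε ≤ |x - y|) →
      (S.card : ℝ) * Real.log (8 * D ^ 2 / c ^ 2) < Real.log (c ^ 2 / (3 * D * ε)),
     ∀ L' : Fin n → Fin n → ℝ, IsLimit L L' → ∃ p : Fin n → ℤ, p ≠ 0 ∧ ∃ η : ℝ, 0 < η ∧
      ∀ q : Fin n → ℤ, |value L' q - value L' p| < η → value L' q = value L' p].TFAE := by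
  classical
  have hD0 : 0 < D := by
    rw [hD]; exact abs_pos.mpr ((li_iff_det L).mp hL)
  have hdisc : Conclusion L → ∃ C : ℝ, C ≠ 0 ∧ ∀ p : Fin n → ℤ, ∃ z : ℤ, value L p = C * z := by
    intro h
    obtain ⟨A, μ, hμ, hA⟩ := PairResult.eigen_of_conclusion hL h
    obtain ⟨C, hC⟩ := values_of_matrix hμ hA
    refine ⟨C, ?_, hC⟩
    rintro rfl
    obtain ⟨z, hz⟩ := hC (fun _ => 1)
    rw [zero_mul] at hz
    have hp : (fun _ => 1 : Fin n → ℤ) ≠ 0 := by
      intro h0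
      have := congrFun h0 ⟨0, by omega⟩
      simp at this
    have h1 := hlow _ hp
    have h2 : value L (fun _ => 1) = 0 := hz
    rw [h2, abs_zero] at h1
    linarith
  tfae_have 1 → 2 := by
    intro h
    obtain ⟨C, hC, hv⟩ := hdisc h
    exact discrete_closed hC (by rintro v ⟨p, rfl⟩; exact hv p)
  tfae_have 2 → 3 := by
    intro h
    rw [h.closure_eq]
    exact (Set.countable_range _).mono Set.inter_subset_left
  tfae_have 3 → 1 := by
    intro h
    by_contra hcon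
    refine Vals.uncount hn hL hc hlow hcon ?_
    rw [← hD]
    exact h
  tfae_have 1 → 4 := by
    intro h
    obtain ⟨C, hC, hv⟩ := hdisc h
    set Λ := Real.log (8 * D ^ 2 / c ^ 2) with hΛ
    set m : ℕ := ⌈2 * D / |C|⌉₊ with hm
    have hCpos : 0 < |C| := abs_pos.mpr hC
    set B : ℝ := (2 * (m : ℝ) + 1) * |Λ| + 1 with hB
    refine ⟨c ^ 2 / (3 * D) * Real.exp (-B), by positivity, fun S hS _ => ?_⟩
    have h1 : c ^ 2 / (3 * D * (c ^ 2 / (3 * D) * Real.exp (-B))) = Real.exp B := by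
      rw [Real.exp_neg]
      have := (Real.exp_pos B).ne'
      field_simp
    rw [h1, Real.log_exp]
    have h2 : S ⊆ (Finset.Icc (-(m : ℤ)) m).image (fun z : ℤ => C * (z : ℝ)) := by
      intro x hx
      obtain ⟨⟨p, rfl⟩, hx2⟩ := hS x hx
      obtain ⟨z, hz⟩ := hv p
      rw [Finset.mem_image]
      refine ⟨z, ?_, hz.symm⟩
      rw [hz, abs_mul] at hx2
      have h3 : |(z : ℝ)| ≤ m := by
        have h4 : |(z : ℝ)| ≤ 2 * D / |C| := by
          rw [le_div_iff₀ hCpos]; linarith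
        exact h4.trans (Nat.le_ceil _)
      rw [abs_le] at h3
      rw [Finset.mem_Icc]
      exact ⟨by exact_mod_cast h3.1, by exact_mod_cast h3.2⟩
    have h3 : (S.card : ℝ) ≤ 2 * (m : ℝ) + 1 := by
      have h4 := (Finset.card_le_card h2).trans Finset.card_image_le
      rw [Int.card_Icc] at h4
      have h5 : ((m : ℤ) + 1 - (-(m : ℤ))).toNat = 2 * m + 1 := by omega
      rw [h5] at h4
      exact_mod_cast h4
    calc (S.card : ℝ) * Λ ≤ (S.card : ℝ) * |Λ| := by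
          gcongr
          exact le_abs_self Λ
      _ ≤ (2 * (m : ℝ) + 1) * |Λ| := by gcongr
      _ < B := by rw [hB]; linarith
  tfae_have 4 → 1 := by
    rintro ⟨ε, hε, h⟩
    by_contra hcon
    obtain ⟨S, hS1, hS2, hS3⟩ := Vals.many hn hL hc hlow hcon hε
    rw [← hD] at hS1 hS3
    exact absurd (h S hS1 hS2) (not_lt.mpr hS3)
  tfae_have 1 → 5 := by
    intro h L' hL'
    obtain ⟨C, hC, hv⟩ := hdisc h
    have hcl : IsClosed (Set.range fun z : ℤ => C * (z : ℝ)) :=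
      discrete_closed hC (by rintro v ⟨z, rfl⟩; exact ⟨z, rfl⟩)
    have h1 : ∀ q : Fin n → ℤ, ∃ z : ℤ, value L' q = C * z := by
      intro q
      have h2 : value L' q ∈ closure (Set.range (value L)) :=
        Vals.vf_closure (PairResult.limit_orb hL') q
      have h3 : closure (Set.range (value L)) ⊆ Set.range fun z : ℤ => C * (z : ℝ) := by
        apply closure_minimal _ hcl
        rintro v ⟨p, rfl⟩
        obtain ⟨z, hz⟩ := hv p
        exact ⟨z, hz.symm⟩
      obtain ⟨z, hz⟩ := h3 h2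
      exact ⟨z, hz.symm⟩
    refine ⟨fun _ => 1, ?_, |C|, abs_pos.mpr hC, fun q hq => ?_⟩
    · intro h0
      have := congrFun h0 ⟨0, by omega⟩
      simp at this
    · obtain ⟨z, hz⟩ := h1 q
      obtain ⟨w, hw⟩ := h1 (fun _ => 1)
      rw [hz, hw] at hq ⊢
      rw [← mul_sub, abs_mul] at hq
      have h4 : |(z : ℝ) - w| < 1 := by
        have := abs_pos.mpr hC
        by_contra h5
        push Not at h5
        nlinarith
      have h5 : |z - w| < 1 := by exact_mod_cast h4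
      rw [Int.abs_lt_one_iff] at h5
      have h6 : z = w := by omega
      rw [h6]
  tfae_have 5 → 1 := by
    intro h
    by_contra hcon
    obtain ⟨z, hz, hz2⟩ := Vals.not_isol hn hL hc hlow hcon
    obtain ⟨M, t, hM, ht, hlim⟩ := mem_closure_orb hz
    obtain ⟨p, hp, η, hη, hiso⟩ := h z ⟨M, t, hM, ht, hlim⟩
    obtain ⟨q, hq1, hq2⟩ := hz2 p hp η hη
    exact hq2 (hiso q hq1)
  tfae_finish

end Pool.Agent.Results.MP_77d073_nt.ValueGap
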